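import Pool.Agent.H24.BZ

set_option autoImplicit false

open Polynomial

namespace Pool.Agent.Results.MP_a4d033_an.Distinct

/-- The class `B_n`. -/
def InB (n : ℕ) (p : ℂ[X]) : Prop :=
  p.natDegree ≤ n ∧ ‖p.coeff 0‖ = 1 ∧ ∀ j, ‖p.coeff j‖ ≤ 1

theorem result :
    (∀ n : ℕ, 1 ≤ n → ∀ a : ℝ, (n : ℝ) ^ (-(1 / 2) : ℝ) ≤ a → a < 1 →
      ∃ p : ℂ[X], InB n p ∧ ∃ S : Finset ℝ, S.card = ⌊1 / (8 * a)⌋₊ ∧
        ∀ x ∈ S, x ∈ Set.Icc (-1 + a) (1 - a) ∧ p.eval (x : ℂ) = 0) ∧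
    (∀ (n : ℕ) (a : ℝ) (p : ℂ[X]), 1 / 2 ≤ a → InB n p →
      ∀ x ∈ Set.Icc (-1 + a) (1 - a), p.eval (x : ℂ) ≠ 0) := by
  refine ⟨fun n hn a ha ha1 => ?_, fun n a p ha hp x hx => ?_⟩
  · have hn0 : (0 : ℝ) < n := by exact_mod_cast hn
    have h0 := Real.rpow_pos_of_pos hn0 (-(1 / 2))
    have ha0 : 0 < a := h0.trans_le ha
    have h1 : ((n : ℝ) ^ (-(1 / 2) : ℝ)) ^ 2 * n = 1 := by
      rw [← Real.rpow_natCast, ← Real.rpow_mul hn0.le, ← Real.rpow_add_one hn0.ne']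
      norm_num
    have h2 : 1 ≤ a ^ 2 * n := h1 ▸ by gcongr
    rcases Nat.eq_zero_or_pos ⌊1 / (8 * a)⌋₊ with h | h
    · exact ⟨1, ⟨by simp, by simp, fun j => by rw [coeff_one]; split_ifs <;> simp⟩, ∅,
        by simp [← h], by simp⟩
    have h3 : (⌊1 / (8 * a)⌋₊ : ℝ) ≤ 1 / (8 * a) := Nat.floor_le (by positivity)
    generalize ⌊1 / (8 * a)⌋₊ = k at h h3
    rw [le_div_iff₀ (by positivity)] at h3
    obtain ⟨p, p1, p2, p3, S, s1, s2⟩ := Pool.Agent.H24.BZ.exists_poly k h a ha0 (by linarith)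
    have h4 : 3 * k ^ 2 ≤ n := by
      have hk : (0 : ℝ) ≤ k * a := by positivity
      have h5 : (k * a) ^ 2 ≤ (1 / 8 : ℝ) ^ 2 := by gcongr; linarith
      have : (3 * k ^ 2 : ℝ) ≤ n := by nlinarith [sq_nonneg (k : ℝ)]
      exact_mod_cast this
    refine ⟨p.map Complex.ofRealHom, ⟨natDegree_map_le.trans (p1.trans h4), by simpa using p2,
      fun j => by simpa using p3 j⟩, S, s1, fun x hx => ⟨⟨by linarith [(s2 x hx).1.1],
        (s2 x hx).1.2⟩, ?_⟩⟩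
    have := eval_map_apply (p := p) Complex.ofRealHom x
    simpa [(s2 x hx).2] using this
  · refine Pool.Agent.H24.BZ.no_zero p hp.2.1 hp.2.2 x ?_
    rw [Complex.norm_real, Real.norm_eq_abs, abs_le]
    constructor <;> linarith [hx.1, hx.2]

end Pool.Agent.Results.MP_a4d033_an.Distinct
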